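import Pool.Agent.H37.CNR.Stmts
import Pool.Agent.H53.CNK.DKK

/-!
Row WP4 of board cnr: a place above a given place at infinity.
-/

set_option autoImplicit false

namespace Pool.CND

open Polynomial

namespace WP4X

variable {k L : Type} [Field k] [Field L] [Algebra k L]

/-- a cover is finite and separable over `k(t)` -/
theorem fin_sep {G : Type} [Group G] [Finite G] (ρ : G →* (L ≃ₐ[k] L)) (t : L)
    (h : IsCover ρ t) : Module.Finite (IntermediateField.adjoin k {t}) L ∧
      Algebra.IsSeparable (IntermediateField.adjoin k {t}) L := by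
  let H : Subgroup (L ≃ₐ[k] L) := ρ.range
  have hHf : Finite H := by
    have h2 : (Set.range ρ).Finite := Set.finite_range ρ
    have h3 : (H : Set (L ≃ₐ[k] L)) = Set.range ρ := MonoidHom.coe_range ρ
    have : (H : Set (L ≃ₐ[k] L)).Finite := by rw [h3]; exact h2
    exact this.to_subtype
  have hE : IntermediateField.fixedField H = IntermediateField.adjoin k {t} := by
    ext z
    rw [IntermediateField.mem_fixedField_iff, ← h.fixed]
    constructor
    · intro h4 g
      exact h4 (ρ g) ⟨g, rfl⟩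
    · rintro h4 f ⟨g, rfl⟩
      exact h4 g
  have hfin : Module.Finite (IntermediateField.fixedField H) L :=
    (inferInstance : FiniteDimensional (FixedPoints.subfield H L) L)
  have hsep : Algebra.IsSeparable (IntermediateField.fixedField H) L :=
    (inferInstance : Algebra.IsSeparable (FixedPoints.subfield H L) L)
  rw [← hE]
  exact ⟨hfin, hsep⟩

/-- a place twisted by an automorphism -/
def tw (P : Place k L) (σ : L ≃ₐ[k] L) : Place k L where
  ord := fun x => P.ord (σ x)
  ord_mul := by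
    intro x y hx hy
    rw [map_mul]
    exact P.ord_mul _ _ (fun h => hx (by simpa using h)) (fun h => hy (by simpa using h))
  ord_add := by
    intro x y hx hy hxy
    rw [map_add]
    refine P.ord_add _ _ (fun h => hx (by simpa using h)) (fun h => hy (by simpa using h)) ?_
    intro h
    rw [← map_add] at h
    exact hxy ((map_eq_zero_iff σ σ.injective).1 h)
  ord_surj := by
    obtain ⟨x, hx, h1⟩ := P.ord_surj
    refine ⟨σ.symm x, fun h => hx (by simpa using h), ?_⟩
    rw [AlgEquiv.apply_symm_apply]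
    exact h1
  ord_const := by
    intro c hc
    rw [AlgEquiv.commutes]
    exact P.ord_const c hc
  residue := by
    intro x hx h0
    obtain ⟨c, hc⟩ := P.residue (σ x) (fun h => hx (by simpa using h)) h0
    refine ⟨c, ?_⟩
    rcases hc with hc | hc
    · left
      apply σ.injective
      rw [hc, AlgEquiv.commutes]
    · right
      rw [map_sub, AlgEquiv.commutes]
      exact hc

/-- two places with a pole of `t` agree, up to a positive factor, on `k(t)` -/
theorem ord_zero (P Q : Place k L) (t : L) (ht0 : t ≠ 0) (hP : P.ord t < 0) (hQ : Q.ord t < 0)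
    (z : L) (hz : z ∈ IntermediateField.adjoin k {t}) (hz0 : z ≠ 0) (h : P.ord z = 0) :
    Q.ord z = 0 := by
  obtain ⟨f, g, rfl⟩ := (IntermediateField.mem_adjoin_simple_iff k z).1 hz
  have hf : f ≠ 0 := by
    rintro rfl
    exact hz0 (by simp)
  have hg : g ≠ 0 := by
    rintro rfl
    exact hz0 (by simp)
  obtain ⟨e, he⟩ : ∃ e : ℕ, P.ord t = -(e : ℤ) := ⟨(-P.ord t).toNat, by omega⟩
  obtain ⟨e', he'⟩ : ∃ e' : ℕ, Q.ord t = -(e' : ℤ) := ⟨(-Q.ord t).toNat, by omega⟩
  obtain ⟨hf1, hf2⟩ := DKK.ord_aeval P t e (by omega) ht0 he f hf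
  obtain ⟨hg1, hg2⟩ := DKK.ord_aeval P t e (by omega) ht0 he g hg
  obtain ⟨-, hf3⟩ := DKK.ord_aeval Q t e' (by omega) ht0 he' f hf
  obtain ⟨-, hg3⟩ := DKK.ord_aeval Q t e' (by omega) ht0 he' g hg
  rw [P.ord_div hf1 hg1, hf2, hg2] at h
  rw [Q.ord_div hf1 hg1, hf3, hg3]
  have h1 : (e : ℤ) * (f.natDegree : ℤ) = e * g.natDegree := by linarith
  have h2 : (e : ℤ) ≠ 0 := by omega
  have h3 := mul_left_cancel₀ h2 h1
  rw [h3]
  ring

end WP4X

open WP4X in
theorem wp4_thm (hEXI : S_EXI) (hRSP : S_RSP) (hTRV : S_TRV) : S_WP4 := by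
  intro k L L' G H _ _ _ _ _ _ _ _ _ ρ ρ' j π P t hc hc' hPt hπ hact hfix
  have hH : Finite H := Finite.of_surjective π hπ
  have ht0 : t ≠ 0 := by
    rintro rfl
    exact hc.trans isAlgebraic_zero
  obtain ⟨hfin, hsep⟩ := fin_sep ρ' (j t) hc'
  obtain ⟨P₁, hP₁⟩ := hEXI k L' (j t) hc'.trans hfin hsep
  obtain ⟨e, P₀, he, hP₀⟩ := hRSP k L L' j P₁ t hc.trans
  have hP₀t : P₀.ord t < 0 := by
    have h1 := hP₀ t ht0
    by_contra hcon
    push Not at hcon
    have h2 : 0 ≤ (e : ℤ) * P₀.ord t := mul_nonneg (by omega) hcon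
    omega
  obtain ⟨c, -, hcP⟩ := hTRV k L H ρ ⊤ P P₀ (by
    intro z hz0 hz hPz
    refine ord_zero P P₀ t ht0 hPt hP₀t z ?_ hz0 hPz
    exact (hc.fixed z).1 fun g => hz g (Subgroup.mem_top g))
  obtain ⟨g, hg⟩ := hπ c⁻¹
  refine ⟨tw P₁ (ρ' g), e, ?_⟩
  constructor
  · exact hc.inj
  · exact hc'.inj
  · exact hπ
  · exact hact
  · exact hfix
  · exact he
  · intro z hz
    show (e : ℤ) * P.ord z = P₁.ord (ρ' g (j z))
    have h1 : ρ (π g) z ≠ 0 := fun h => hz (by simpa using h)
    rw [hact, ← hP₀ _ h1, hcP _ h1, hg]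
    have h2 : ρ c (ρ c⁻¹ z) = z := by
      have h3 : (ρ c * ρ c⁻¹) z = z := by
        rw [← map_mul, mul_inv_cancel, map_one]
        rfl
      exact h3
    rw [h2]

end Pool.CND
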